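import Pool.Agent.H18.CGR.Stmts

/-!
# Row SCL of the board cgr (scaling)
-/

set_option autoImplicit false

noncomputable section

open Filter
open scoped Topology

namespace Pool.CGR

theorem scl_ev {α A : Type*} [Ring A] [Algebra ℂ A] (t : α → ℂ) (x : α → A) (w : List α) :
    ev (fun a => t a • x a) w = (w.map t).prod • ev x w := by
  induction w with
  | nil => simp [ev]
  | cons a w ih =>
    have h : ∀ z : α → A, ev z (a :: w) = z a * ev z w := fun z => by simp [ev]
    rw [h, h, ih, List.map_cons, List.prod_cons, smul_mul_smul_comm]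

theorem scl_split {α : Type*} (t : α → ℂ) (w : List α) (k : ℕ) (i : α) (h : w[k]? = some i) :
    (w.map t).prod = ((w.take k).map t).prod * t i * ((w.drop (k + 1)).map t).prod := by
  obtain ⟨hk, hi⟩ := List.getElem?_eq_some_iff.1 h
  have h1 : w.drop k = i :: w.drop (k + 1) := by
    rw [List.drop_eq_getElem_cons hk, hi]
  conv_lhs => rw [← List.take_append_drop k w, h1]
  rw [List.map_append, List.prod_append, List.map_cons, List.prod_cons, mul_assoc]

theorem scl_dq {α A : Type*} [DecidableEq α] [Ring A] [Algebra ℂ A] (τ : A →ₗ[ℂ] ℂ)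
    (t : α → ℂ) (x : α → A) (i : α) (w : List α) :
    t i * dq (fun w => τ (ev (fun a => t a • x a) w)) i w =
      (w.map t).prod * dq (fun w => τ (ev x w)) i w := by
  unfold dq
  rw [Finset.mul_sum, Finset.mul_sum]
  refine Finset.sum_congr rfl fun k _ => ?_
  by_cases h : w[k]? = some i
  · rw [if_pos h, if_pos h, scl_split t w k i h]
    simp only [scl_ev, map_smul, smul_eq_mul]
    ring
  · rw [if_neg h, if_neg h, mul_zero, mul_zero]

theorem scl_cg {α A : Type*} [DecidableEq α] [Ring A] [Algebra ℂ A]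
    (t : α → ℂ) (x : α → A) (i : α) (w : List α) :
    t i • cg (fun a => t a • x a) i w = (w.map t).prod • cg x i w := by
  unfold cg
  rw [Finset.smul_sum, Finset.smul_sum]
  refine Finset.sum_congr rfl fun k _ => ?_
  by_cases h : w[k]? = some i
  · rw [if_pos h, if_pos h, scl_split t w k i h, scl_ev, List.map_append, List.prod_append,
      smul_smul]
    congr 1
    ring
  · rw [if_neg h, if_neg h, smul_zero, smul_zero]

theorem scl_thm : SCLStmt := by
  intro hMN m A _ τ hτ y S s R hs hy hS hsemi hyR hR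
  have hsC : (s : ℂ) ≠ 0 := by exact_mod_cast hs.ne'
  -- the scaled tuple
  set c : ℂ := ((s⁻¹ : ℝ) : ℂ) with hc
  have hc0 : c * (s : ℂ) = 1 := by
    rw [hc, ← Complex.ofReal_mul, inv_mul_cancel₀ hs.ne', Complex.ofReal_one]
  have hcsa : IsSelfAdjoint c := by
    rw [hc]
    exact Complex.conj_ofReal _
  have hy' : ∀ i, IsSelfAdjoint (c • y i) := fun i => hcsa.smul (hy i)
  have hsemi' : IsSemi τ (fun i => c • y i) S := by
    intro i w
    let t : Fin m ⊕ Fin m → ℂ := Sum.elim (fun _ => c) (fun _ => 1)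
    have e1 : (Sum.elim (fun i => c • y i) S : Fin m ⊕ Fin m → A) =
        fun a => t a • Sum.elim y S a := by
      funext a
      rcases a with a | a
      · rfl
      · simp [t]
    have h1 := scl_dq τ t (Sum.elim y S) (Sum.inr i) w
    have h2 : t (Sum.inr i) = 1 := rfl
    rw [h2, one_mul] at h1
    rw [e1, h1, scl_ev, mul_smul_comm, map_smul, smul_eq_mul, hsemi i w]
  have hyR' : ∀ i, ‖c • y i‖ ≤ s⁻¹ * R := by
    intro i
    rw [norm_smul, hc, Complex.norm_real, Real.norm_eq_abs, abs_of_pos (inv_pos.2 hs)]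
    exact mul_le_mul_of_nonneg_left (hyR i) (inv_pos.2 hs).le
  have hR' : 100 * m * (s⁻¹ * R) ≤ 1 := by
    have : 100 * (m : ℝ) * (s⁻¹ * R) = (100 * m * R) * s⁻¹ := by ring
    rw [this]
    calc (100 * m * R) * s⁻¹ ≤ s * s⁻¹ := mul_le_mul_of_nonneg_right hR (inv_pos.2 hs).le
      _ = 1 := mul_inv_cancel₀ hs.ne'
  obtain ⟨J, H, hJ, hH⟩ := hMN m A τ hτ (fun i => c • y i) S (s⁻¹ * R) hy' hS hsemi' hyR' hR'
  -- back
  set x' : Fin m → A := fun i => c • y i + S i with hx'
  have hx : (fun i => y i + (s : ℂ) • S i) = fun i => (fun _ : Fin m => (s : ℂ)) i • x' i := by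
    funext i
    simp only [hx', smul_add, smul_smul]
    rw [mul_comm (s : ℂ) c, hc0, one_smul]
  let pr : List (Fin m) → ℂ := fun w => (w.map (fun _ : Fin m => (s : ℂ))).prod
  have hpr : ∀ w, pr w ≠ 0 := by
    intro w
    simp only [pr, List.map_const', List.prod_replicate]
    exact pow_ne_zero _ hsC
  rw [hx]
  refine ⟨fun i => c • J i, fun n => Finsupp.linearCombination ℂ
    (fun w => (pr w)⁻¹ • Finsupp.single w (1 : ℂ)) (H n), fun i w => ?_, fun i => ?_⟩
  · have h1 := scl_dq τ (fun _ : Fin m => (s : ℂ)) x' i w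
    have h2 := hJ i w
    have h3 : τ (c • J i * ev (fun i => (fun _ : Fin m => (s : ℂ)) i • x' i) w) =
        c * (pr w * τ (J i * ev x' w)) := by
      rw [scl_ev, smul_mul_smul_comm, map_smul, smul_eq_mul, mul_assoc]
    rw [h3, h2]
    calc c * (pr w * dq (fun w => τ (ev x' w)) i w)
        = c * ((s : ℂ) * dq (fun w => τ (ev (fun a => (fun _ : Fin m => (s : ℂ)) a • x' a) w)) i w) := by
          rw [h1]
      _ = (c * (s : ℂ)) * dq (fun w => τ (ev (fun a => (fun _ : Fin m => (s : ℂ)) a • x' a) w)) i w := by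
          ring
      _ = _ := by rw [hc0, one_mul]
  · have hcg : ∀ w, (pr w)⁻¹ • cg (fun i => (fun _ : Fin m => (s : ℂ)) i • x' i) i w =
        c • cg x' i w := by
      intro w
      have h1 := scl_cg (fun _ : Fin m => (s : ℂ)) x' i w
      have h2 : cg (fun i => (fun _ : Fin m => (s : ℂ)) i • x' i) i w = c • (pr w • cg x' i w) := by
        rw [← h1, smul_smul, hc0, one_smul]
      rw [h2, smul_comm c (pr w), smul_smul, inv_mul_cancel₀ (hpr w), one_smul]
    have hmap : ∀ f : List (Fin m) →₀ ℂ,
        ((Finsupp.linearCombination ℂ (fun w => (pr w)⁻¹ • Finsupp.single w (1 : ℂ)) f).sum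
          fun w r => r • cg (fun i => (fun _ : Fin m => (s : ℂ)) i • x' i) i w) =
        c • (f.sum fun w r => r • cg x' i w) := by
      intro f
      have h1 : (Finsupp.linearCombination ℂ (cg (fun i => (fun _ : Fin m => (s : ℂ)) i • x' i) i)) ∘ₗ
          (Finsupp.linearCombination ℂ (fun w => (pr w)⁻¹ • Finsupp.single w (1 : ℂ))) =
          c • Finsupp.linearCombination ℂ (cg x' i) := by
        ext w
        simp only [LinearMap.comp_apply, Finsupp.lsingle_apply, Finsupp.linearCombination_single,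
          one_smul, map_smul, LinearMap.smul_apply]
        exact hcg w
      have h2 := LinearMap.congr_fun h1 f
      simpa [Finsupp.linearCombination_apply] using h2
    have h4 := (hH i).const_smul c
    refine h4.congr fun n => ?_
    exact (hmap (H n)).symm

end Pool.CGR
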